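import Mathlib
import Pool.Agent.H.MP_f0defb_al.Main

set_option autoImplicit false

namespace Pool.Agent.Results.MP_f0defb_al.Q1

universe u

open Pool.Agent.H.MP_f0defb_al

theorem result (X : Type u) [Nonempty X] :
    (∃ (F : Type u) (r : F × F → F × F) (i : X → F), IsFree r i) ∧
    ∀ (F : Type u) (r : F × F → F × F) (i : X → F), IsFree r i →
      ¬ Function.Injective (PresentedGroup.of : F → PresentedGroup (rels r)) :=
  ⟨exists_free X, fun _ r i h => not_inj r i h⟩

end Pool.Agent.Results.MP_f0defb_al.Q1
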